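import Pool.Agent.Y133.Half.Gr0

/-!
# Ideals of the algebra spanned by the permutations, and partial traces
-/

set_option linter.unusedSectionVars false

namespace Pool.Agent.Q55.Fin

open Module Finset Pool.Agent.Y133.Half

variable {K M ι : Type*} [Field K] [CharZero K] [AddCommGroup M] [Module K M]
  [FiniteDimensional K M] [Fintype ι] [DecidableEq ι] {N : ℕ}

/-- A two-sided ideal of the algebra spanned by the permutations has a central identity. -/
theorem exists_central (R : Equiv.Perm (Fin N) →* Module.End K M)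
    (I : Submodule K (Module.End K M)) (hI : ∀ x ∈ I, x ∈ repAlg R)
    (hl : ∀ a ∈ repAlg R, ∀ x ∈ I, a * x ∈ I) (hr : ∀ a ∈ repAlg R, ∀ x ∈ I, x * a ∈ I) :
    ∃ z ∈ I, (∀ σ, R σ * z = z * R σ) ∧ ∀ x ∈ I, x * z = x := by
  classical
  let J : Ideal (repAlg R) :=
    { carrier := {x | (x : Module.End K M) ∈ I}
      zero_mem' := I.zero_mem
      add_mem' := fun {a b} ha hb => I.add_mem ha hb
      smul_mem' := fun c x hx => hl c c.2 x hx }
  obtain ⟨e, he, hJ⟩ := IsSemisimpleRing.ideal_eq_span_idempotent J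
  have heI : (e : Module.End K M) ∈ I := by
    have : e ∈ J := by rw [hJ]; exact Ideal.mem_span_singleton_self e
    exact this
  have hx : ∀ x ∈ I, x * (e : Module.End K M) = x := by
    intro x hx
    have h1 : (⟨x, hI x hx⟩ : repAlg R) ∈ J := hx
    rw [hJ] at h1
    obtain ⟨a, ha⟩ := Ideal.mem_span_singleton'.1 h1
    have h2 : (a : Module.End K M) * e = x := congrArg Subtype.val ha
    have h3 : (e : Module.End K M) * e = e := congrArg Subtype.val he
    rw [← h2, mul_assoc, h3]
  have hc : (Fintype.card (Equiv.Perm (Fin N)) : K) ≠ 0 := Nat.cast_ne_zero.2 Fintype.card_ne_zero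
  set y : Module.End K M := ∑ σ : Equiv.Perm (Fin N), R σ * e * R σ⁻¹ with hy
  have hyI : y ∈ I := I.sum_mem fun σ _ => hr _ (rep_mem R _) _ (hl _ (rep_mem R _) _ heI)
  have hys : ∀ σ, R σ * y = y * R σ := by
    intro σ
    rw [hy, mul_sum, sum_mul]
    refine Fintype.sum_equiv (Equiv.mulLeft σ) _ _ fun τ => ?_
    rw [Equiv.coe_mulLeft, mul_inv_rev, map_mul, map_mul]
    simp only [mul_assoc]
    rw [← map_mul R σ⁻¹ σ, inv_mul_cancel, map_one, mul_one]
  refine ⟨(Fintype.card (Equiv.Perm (Fin N)) : K)⁻¹ • y, I.smul_mem _ hyI, fun σ => ?_,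
    fun x hxI => ?_⟩
  · rw [mul_smul_comm, smul_mul_assoc, hys]
  · rw [mul_smul_comm, hy, mul_sum]
    have h1 : ∀ σ ∈ (univ : Finset (Equiv.Perm (Fin N))), x * (R σ * e * R σ⁻¹) = x := by
      intro σ _
      rw [← mul_assoc, ← mul_assoc, hx _ (hr _ (rep_mem R _) _ hxI), mul_assoc, ← map_mul,
        mul_inv_cancel, map_one, mul_one]
    rw [sum_congr rfl h1, sum_const, card_univ, ← Nat.cast_smul_eq_nsmul K, smul_smul,
      inv_mul_cancel₀ hc, one_smul]

/-- The diagonal coefficients of an operator. -/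
noncomputable def dc (e : Basis (Fin N → ι) K M) (z : Module.End K M) (w : Fin N → ι) : K :=
  e.repr (z (e w)) w

variable (e : Basis (Fin N → ι) K M)

lemma trace_eq_dc (z : Module.End K M) : LinearMap.trace K M z = ∑ w, dc e z w := by
  rw [LinearMap.trace_eq_matrix_trace K e, Matrix.trace]
  exact sum_congr rfl fun w _ => by rw [Matrix.diag_apply, LinearMap.toMatrix_apply]; rfl

lemma dc_sum {κ : Type*} (s : Finset κ) (z : κ → Module.End K M) (w : Fin N → ι) :
    dc e (∑ i ∈ s, z i) w = ∑ i ∈ s, dc e (z i) w := by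
  unfold dc
  rw [LinearMap.sum_apply, map_sum, Finsupp.finsetSum_apply]

/-- Conjugation by a permutation permutes the diagonal coefficients. -/
lemma dc_conj (R : Equiv.Perm (Fin N) →* Module.End K M)
    (hP : ∀ σ w, ∃ s : K, s ≠ 0 ∧ R σ (e (w ∘ σ)) = s • e w) (x : Module.End K M)
    (σ : Equiv.Perm (Fin N)) (w : Fin N → ι) :
    dc e (R σ * x * R σ⁻¹) w = dc e x (w ∘ σ) := by
  obtain ⟨s, hs, h⟩ := hP σ w
  have h1 : R σ⁻¹ (e w) = s⁻¹ • e (w ∘ σ) := by
    have h2 := congrArg (R σ⁻¹) h
    rw [map_smul] at h2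
    have h3 : R σ⁻¹ (R σ (e (w ∘ σ))) = e (w ∘ σ) := by
      change (R σ⁻¹ * R σ) _ = _
      rw [← map_mul, inv_mul_cancel, map_one, Module.End.one_apply]
    rw [h3] at h2
    rw [h2, smul_smul, inv_mul_cancel₀ hs, one_smul]
  have h4 : (e.coord w) ∘ₗ (R σ) = s • e.coord (w ∘ σ) := by
    apply e.ext
    intro y
    rw [LinearMap.comp_apply, LinearMap.smul_apply, Basis.coord_apply, Basis.coord_apply,
      Basis.repr_self]
    have h5 : y = (y ∘ σ.symm) ∘ σ := by
      funext i
      simp
    obtain ⟨s', hs', h'⟩ := hP σ (y ∘ σ.symm)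
    rw [← h5] at h'
    rw [h', map_smul, Finsupp.smul_apply, Basis.repr_self]
    by_cases hy : y = w ∘ σ
    · have h6 : y ∘ σ.symm = w := by
        rw [hy]; funext i; simp
      rw [h6] at h'
      have h7 : s' • e w = s • e w := by rw [← h', ← h, hy]
      have h8 : s' = s := by
        have := congrArg (fun v => e.repr v w) h7
        simpa using this
      rw [h6, hy, Finsupp.single_eq_same, Finsupp.single_eq_same, h8]
    · have h6 : y ∘ σ.symm ≠ w := by
        intro h7
        exact hy (by rw [← h7]; exact h5)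
      rw [Finsupp.single_eq_of_ne (Ne.symm h6), Finsupp.single_eq_of_ne (Ne.symm hy), smul_zero,
        smul_zero]
  have h9 : dc e (R σ * x * R σ⁻¹) w = (e.coord w ∘ₗ R σ) (x (R σ⁻¹ (e w))) := rfl
  rw [h9, h4, h1, map_smul, LinearMap.smul_apply, map_smul, smul_smul, Basis.coord_apply]
  rw [smul_eq_mul, mul_comm s, inv_mul_cancel₀ hs, one_mul]
  rfl

variable (E : ι → Prop) [DecidablePred E]

/-- The number of letters with the property `E`. -/
def ev {n : ℕ} (w : Fin n → ι) : ℕ := (univ.filter fun i => E (w i)).card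

/-- The sum of the diagonal coefficients at the words with `k` letters with the property `E`. -/
noncomputable def tk (k : ℕ) (x : Module.End K M) : K :=
  ∑ w : Fin N → ι, if ev E w = k then dc e x w else 0

/-- The sign of a letter. -/
def sg (K : Type*) [Field K] (c : ι) : K := if E c then 1 else -1

lemma sg_mul_sg (c : ι) : sg E K c * sg E K c = 1 := by
  unfold sg
  split_ifs <;> simp

lemma ev_perm (σ : Equiv.Perm (Fin N)) (w : Fin N → ι) : ev E (w ∘ σ) = ev E w := by
  unfold ev
  refine card_bij (fun i _ => σ i) ?_ ?_ ?_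
  · intro i hi
    simpa using hi
  · intro i _ j _ h
    exact σ.injective h
  · intro i hi
    refine ⟨σ.symm i, ?_, by simp⟩
    simpa using hi

lemma ev_le {n : ℕ} (w : Fin n → ι) : ev E w ≤ n := by
  have := card_le_univ (univ.filter fun i => E (w i))
  rwa [Fintype.card_fin] at this

lemma trace_eq_tk (x : Module.End K M) :
    LinearMap.trace K M x = ∑ k ∈ range (N + 1), tk e E k x := by
  unfold tk
  rw [trace_eq_dc e, sum_comm]
  refine sum_congr rfl fun w _ => ?_
  rw [sum_ite_eq, if_pos]
  exact mem_range.2 (Nat.lt_succ_of_le (ev_le E w))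

lemma ev_succ {n : ℕ} (w : Fin (n + 1) → ι) :
    ev E w = ev E (fun i => w i.castSucc) + if E (w (Fin.last n)) then 1 else 0 := by
  unfold ev
  rw [card_filter, card_filter, Fin.sum_univ_castSucc]

/-- The diagonal coefficients of a symmetrized operator. -/
lemma tk_conj (R : Equiv.Perm (Fin N) →* Module.End K M)
    (hP : ∀ σ w, ∃ s : K, s ≠ 0 ∧ R σ (e (w ∘ σ)) = s • e w) (k : ℕ) (x : Module.End K M)
    (σ : Equiv.Perm (Fin N)) : tk e E k (R σ * x * R σ⁻¹) = tk e E k x := by
  unfold tk
  refine Fintype.sum_equiv (Equiv.arrowCongr σ.symm (Equiv.refl ι)) _ _ fun w => ?_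
  have h : (Equiv.arrowCongr σ.symm (Equiv.refl ι)) w = w ∘ σ := rfl
  rw [h, dc_conj e R hP, ev_perm]

section Rec

variable {n : ℕ} (e : Basis (Fin (n + 1) → ι) K M)

/-- The recursion for a symmetric operator. -/
lemma rec_symm {x : Module.End K M} (hx : ∀ (σ : Equiv.Perm (Fin (n + 1))) w,
    dc e x (w ∘ σ) = dc e x w)
    (hPT : ∀ g : (Fin n → ι) → K,
      ∑ w : Fin (n + 1) → ι, (∏ i, sg E K (w i)) * g (fun i => w i.castSucc) * dc e x w = 0)
    (k : ℕ) : ((k : K) + 1) * tk e E (k + 1) x = ((n : K) + 1 - k) * tk e E k x := by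
  -- the sums over the words with a given letter
  have hsym : ∀ (p : ℕ → Prop) [DecidablePred p] (q : ι → Prop) [DecidablePred q]
      (j : Fin (n + 1)), (∑ w : Fin (n + 1) → ι, if p (ev E w) ∧ q (w j) then dc e x w else 0) =
        ∑ w : Fin (n + 1) → ι, if p (ev E w) ∧ q (w (Fin.last n)) then dc e x w else 0 := by
    intro p _ q _ j
    refine Fintype.sum_equiv (Equiv.arrowCongr (Equiv.swap j (Fin.last n)).symm (Equiv.refl ι))
      _ _ fun w => ?_
    have h : (Equiv.arrowCongr (Equiv.swap j (Fin.last n)).symm (Equiv.refl ι)) w =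
        w ∘ (Equiv.swap j (Fin.last n)) := rfl
    rw [h, ev_perm, hx]
    simp only [Function.comp_apply, Equiv.swap_apply_right]
  set a : ℕ → K := fun k => ∑ w : Fin (n + 1) → ι,
    if ev E w = k ∧ E (w (Fin.last n)) then dc e x w else 0 with ha
  set b : ℕ → K := fun k => ∑ w : Fin (n + 1) → ι,
    if ev E w = k ∧ ¬ E (w (Fin.last n)) then dc e x w else 0 with hb
  have h1 : ∀ k : ℕ, ((n : K) + 1) * a k = k * tk e E k x := by
    intro k
    have h2 : ∑ j : Fin (n + 1), (∑ w : Fin (n + 1) → ι,
        if ev E w = k ∧ E (w j) then dc e x w else 0) = ((n : K) + 1) * a k := by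
      rw [sum_congr rfl fun j _ => hsym (fun m => m = k) E j, sum_const, card_univ,
        Fintype.card_fin, nsmul_eq_mul]
      push_cast
      rfl
    rw [← h2, sum_comm, tk, mul_sum]
    refine sum_congr rfl fun w _ => ?_
    by_cases hk : ev E w = k
    · simp only [hk, true_and, if_true]
      rw [← sum_filter, sum_const, nsmul_eq_mul]
      have : (univ.filter fun i => E (w i)).card = k := hk
      rw [this]
    · simp [hk]
  have h3 : ∀ k : ℕ, a k + b k = tk e E k x := by
    intro k
    rw [ha, hb, tk, ← sum_add_distrib]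
    refine sum_congr rfl fun w _ => ?_
    by_cases hk : ev E w = k <;> by_cases hE : E (w (Fin.last n)) <;> simp [hk, hE]
  have h4 : a (k + 1) = b k := by
    have h5 := hPT fun v => if ev E v = k then ∏ i, sg E K (v i) else 0
    have h6 : ∀ w : Fin (n + 1) → ι, (∏ i, sg E K (w i)) *
        (if ev E (fun i => w i.castSucc) = k then ∏ i : Fin n, sg E K (w i.castSucc) else 0) *
          dc e x w = (if ev E w = k + 1 ∧ E (w (Fin.last n)) then dc e x w else 0) -
            (if ev E w = k ∧ ¬ E (w (Fin.last n)) then dc e x w else 0) := by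
      intro w
      have h7 : (∏ i : Fin n, sg E K (w i.castSucc)) * ∏ i : Fin n, sg E K (w i.castSucc) = 1 := by
        rw [← prod_mul_distrib]
        exact prod_eq_one fun i _ => sg_mul_sg E _
      rw [Fin.prod_univ_castSucc, ev_succ E w]
      by_cases hk : ev E (fun i => w i.castSucc) = k
      · rw [if_pos hk, hk]
        have h8 : ∀ s : K, (∏ i : Fin n, sg E K (w i.castSucc)) * s *
            (∏ i : Fin n, sg E K (w i.castSucc)) = s := by
          intro s
          calc _ = ((∏ i : Fin n, sg E K (w i.castSucc)) *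
              ∏ i : Fin n, sg E K (w i.castSucc)) * s := by ring
            _ = s := by rw [h7, one_mul]
        rw [h8]
        by_cases hE : E (w (Fin.last n))
        · simp [hE, sg]
        · simp [hE, sg]
      · rw [if_neg hk, mul_zero, zero_mul]
        by_cases hE : E (w (Fin.last n))
        · simp [hE, hk]
        · simp [hE, hk]
    rw [sum_congr rfl fun w _ => h6 w, sum_sub_distrib] at h5
    exact sub_eq_zero.1 h5
  have h9 := h1 (k + 1)
  have h10 := h1 k
  have h11 := h3 k
  push_cast at h9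
  rw [← h9, h4]
  have h12 : b k = tk e E k x - a k := by rw [← h11]; ring
  rw [h12, mul_sub, h10]
  ring

variable (R : Equiv.Perm (Fin (n + 1)) →* Module.End K M)
  (hP : ∀ σ w, ∃ s : K, s ≠ 0 ∧ R σ (e (w ∘ σ)) = s • e w)
  {I : Submodule K (Module.End K M)} (hI : ∀ x ∈ I, x ∈ repAlg R)
  (hl : ∀ a ∈ repAlg R, ∀ x ∈ I, a * x ∈ I) (hr : ∀ a ∈ repAlg R, ∀ x ∈ I, x * a ∈ I)
  (hPT : ∀ x ∈ I, ∀ g : (Fin n → ι) → K,
    ∑ w : Fin (n + 1) → ι, (∏ i, sg E K (w i)) * g (fun i => w i.castSucc) * dc e x w = 0)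

include hP hl hr hPT

/-- The recursion for the elements of the ideal. -/
lemma rec_ideal {x : Module.End K M} (hx : x ∈ I) (k : ℕ) :
    ((k : K) + 1) * tk e E (k + 1) x = ((n : K) + 1 - k) * tk e E k x := by
  classical
  set y : Module.End K M := ∑ σ : Equiv.Perm (Fin (n + 1)), R σ * x * R σ⁻¹ with hy
  have hyI : y ∈ I := I.sum_mem fun σ _ => hr _ (rep_mem R _) _ (hl _ (rep_mem R _) _ hx)
  have hc : (Fintype.card (Equiv.Perm (Fin (n + 1))) : K) ≠ 0 :=
    Nat.cast_ne_zero.2 Fintype.card_ne_zero
  have htk : ∀ k, tk e E k y = Fintype.card (Equiv.Perm (Fin (n + 1))) * tk e E k x := by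
    intro k
    have h1 : tk e E k y = ∑ σ : Equiv.Perm (Fin (n + 1)), tk e E k (R σ * x * R σ⁻¹) := by
      unfold tk
      rw [sum_comm]
      refine sum_congr rfl fun w _ => ?_
      split_ifs
      · rw [hy, dc_sum]
      · rw [sum_const_zero]
    rw [h1, sum_congr rfl fun σ _ => tk_conj e E R hP k x σ, sum_const, card_univ, nsmul_eq_mul]
  have hsym : ∀ (σ : Equiv.Perm (Fin (n + 1))) w, dc e y (w ∘ σ) = dc e y w := by
    intro σ w
    rw [← dc_conj e R hP]
    congr 1
    rw [hy, mul_sum, sum_mul]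
    refine Fintype.sum_equiv (Equiv.mulLeft σ) _ _ fun τ => ?_
    rw [Equiv.coe_mulLeft, mul_inv_rev, map_mul, map_mul]
    simp only [mul_assoc]
  have h := rec_symm E e hsym (hPT y hyI) k
  rw [htk, htk] at h
  have h2 : (Fintype.card (Equiv.Perm (Fin (n + 1))) : K) *
      (((k : K) + 1) * tk e E (k + 1) x - ((n : K) + 1 - k) * tk e E k x) = 0 := by
    linear_combination h
  exact sub_eq_zero.1 ((mul_eq_zero.1 h2).resolve_left hc)

lemma trace_of_zero {x : Module.End K M} (hx : x ∈ I) (h0 : tk e E 0 x = 0) :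
    LinearMap.trace K M x = 0 := by
  rw [trace_eq_tk e E]
  refine sum_eq_zero fun k _ => ?_
  induction k with
  | zero => exact h0
  | succ k ih =>
    have h1 := rec_ideal E e R hP hl hr hPT hx k
    by_cases hk : k ∈ range (n + 1 + 1)
    · rw [ih hk, mul_zero] at h1
      refine (mul_eq_zero.1 h1).resolve_left ?_
      exact_mod_cast Nat.succ_ne_zero k
    · have h2 : tk e E (k + 1) x = 0 := by
        unfold tk
        refine sum_eq_zero fun w _ => ?_
        rw [if_neg]
        have := ev_le E w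
        rw [mem_range] at hk
        omega
      exact h2

lemma trace_of_last {x : Module.End K M} (hx : x ∈ I) (h0 : tk e E (n + 1) x = 0) :
    LinearMap.trace K M x = 0 := by
  have h1 : ∀ j, j ≤ n + 1 → tk e E (n + 1 - j) x = 0 := by
    intro j
    induction j with
    | zero => intro _; exact h0
    | succ j ih =>
      intro hj
      have h2 := rec_ideal E e R hP hl hr hPT hx (n + 1 - (j + 1))
      have h3 : n + 1 - (j + 1) + 1 = n + 1 - j := by omega
      rw [h3, ih (by omega), mul_zero] at h2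
      refine (mul_eq_zero.1 h2.symm).resolve_left ?_
      have h4 : ((n + 1 - (j + 1) : ℕ) : K) = (n : K) + 1 - (j + 1) := by
        rw [Nat.cast_sub hj]
        push_cast
        ring
      rw [h4]
      have h5 : (n : K) + 1 - ((n : K) + 1 - (j + 1)) = ((j + 1 : ℕ) : K) := by
        push_cast; ring
      rw [h5]
      exact Nat.cast_ne_zero.2 (Nat.succ_ne_zero j)
  rw [trace_eq_tk e E]
  refine sum_eq_zero fun k hk => ?_
  rw [mem_range] at hk
  have := h1 (n + 1 - k) (by omega)
  rwa [show n + 1 - (n + 1 - k) = k by omega] at this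

include hI

/-- **Vanishing.** If there are more factors than `p q`, the ideal is zero. -/
theorem ideal_eq_zero
    (hE : ∀ σ w, (∀ i, E (w i)) → R σ (e (w ∘ σ)) = e w)
    (hO : ∀ i j, i ≠ j → ∀ w, (∀ i, ¬ E (w i)) → w i = w j → R (Equiv.swap i j) (e w) = - e w)
    (hN : Fintype.card {c // E c} * Fintype.card {c // ¬ E c} < n + 1)
    {x : Module.End K M} (hx : x ∈ I) : x = 0 := by
  classical
  obtain ⟨z, hz, hzc, hzx⟩ := exists_central R I hI hl hr
  suffices hz0 : z = 0 by rw [← hzx x hx, hz0, mul_zero]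
  have hzz : z * z = z := hzx z hz
  have htr : ∀ f : Module.End K M, f * f = f → LinearMap.trace K M f = 0 → f = 0 := by
    intro f hf h
    rw [trace_idem hf] at h
    have h1 : finrank K (LinearMap.range f) = 0 := by exact_mod_cast h
    exact LinearMap.range_eq_bot.1 (Submodule.finrank_eq_zero.1 h1)
  -- the idempotent kills the words with all letters in `E`
  have hkill : ∀ w₀ : Fin (n + 1) → ι, (∀ i, E (w₀ i)) → z (e w₀) = 0 := by
    intro w₀ hw₀
    set S : Finset (Equiv.Perm (Fin (n + 1))) := univ.filter fun σ => w₀ ∘ σ = w₀ with hS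
    have hSmul : ∀ τ ∈ S, ∀ σ, σ ∈ S ↔ τ * σ ∈ S := by
      intro τ hτ σ
      rw [hS, mem_filter] at hτ
      simp only [hS, mem_filter, mem_univ, true_and]
      have h1 : w₀ ∘ (τ * σ : Equiv.Perm (Fin (n + 1))) = (w₀ ∘ τ) ∘ σ := rfl
      rw [h1, hτ.2]
    have hSmul' : ∀ τ ∈ S, ∀ σ, σ ∈ S ↔ σ * τ ∈ S := by
      intro τ hτ σ
      rw [hS, mem_filter] at hτ
      simp only [hS, mem_filter, mem_univ, true_and]
      have h1 : w₀ ∘ (σ * τ : Equiv.Perm (Fin (n + 1))) = (w₀ ∘ σ) ∘ τ := rfl
      rw [h1]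
      constructor
      · intro h2; rw [h2, hτ.2]
      · intro h2
        funext i
        have h3 := congrFun h2 (τ.symm i)
        have h4 := congrFun hτ.2 (τ.symm i)
        simp only [Function.comp_apply, Equiv.apply_symm_apply] at h3 h4
        rw [Function.comp_apply, h3, h4]
    set h : Module.End K M := ∑ σ ∈ S, R σ with hh
    have hR : ∀ τ ∈ S, R τ * h = h := by
      intro τ hτ
      rw [hh, mul_sum]
      refine sum_bij (fun σ _ => τ * σ) ?_ ?_ ?_ ?_
      · intro σ hσ; exact (hSmul τ hτ σ).1 hσ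
      · intro σ _ σ' _ h1; exact mul_left_cancel h1
      · intro σ hσ
        refine ⟨τ⁻¹ * σ, ?_, by group⟩
        rw [hSmul τ hτ]
        simpa using hσ
      · intro σ _; rw [map_mul]
    have hR' : ∀ τ ∈ S, h * R τ = h := by
      intro τ hτ
      rw [hh, sum_mul]
      refine sum_bij (fun σ _ => σ * τ) ?_ ?_ ?_ ?_
      · intro σ hσ; exact (hSmul' τ hτ σ).1 hσ
      · intro σ _ σ' _ h1; exact mul_right_cancel h1
      · intro σ hσ
        refine ⟨σ * τ⁻¹, ?_, by group⟩
        rw [hSmul' τ hτ]
        simpa using hσ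
      · intro σ _; rw [map_mul]
    have h1S : (1 : Equiv.Perm (Fin (n + 1))) ∈ S := by
      rw [hS, mem_filter]; exact ⟨mem_univ _, rfl⟩
    have hcS : (S.card : K) ≠ 0 := Nat.cast_ne_zero.2 (card_ne_zero_of_mem h1S)
    have hhh : h * h = (S.card : K) • h := by
      conv_lhs => rw [hh, sum_mul]
      rw [sum_congr rfl fun σ hσ => hR σ hσ, sum_const, ← Nat.cast_smul_eq_nsmul K]
    have hhA : h ∈ repAlg R := Subalgebra.sum_mem _ fun σ _ => rep_mem R σ
    have hhz : h * z = z * h := by
      rw [hh, sum_mul, mul_sum]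
      exact sum_congr rfl fun σ _ => hzc σ
    have hw : h (e w₀) = (S.card : K) • e w₀ := by
      rw [hh, LinearMap.sum_apply]
      have h1 : ∀ σ ∈ S, R σ (e w₀) = e w₀ := by
        intro σ hσ
        rw [hS, mem_filter] at hσ
        have h2 := hE σ w₀ hw₀
        rwa [hσ.2] at h2
      rw [sum_congr rfl h1, sum_const, ← Nat.cast_smul_eq_nsmul K]
    -- the symmetrizer kills the words with no letter in `E`
    have hodd : ∀ v : Fin (n + 1) → ι, (∀ i, ¬ E (v i)) → h (e v) = 0 := by
      intro v hv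
      obtain ⟨i, j, hij, h1⟩ := Fintype.exists_ne_map_eq_of_card_lt
        (fun i : Fin (n + 1) => ((⟨w₀ i, hw₀ i⟩, ⟨v i, hv i⟩) : {c // E c} × {c // ¬ E c}))
        (by rw [Fintype.card_prod, Fintype.card_fin]; exact hN)
      have h2 : w₀ i = w₀ j := congrArg (fun a => (a.1 : ι)) h1
      have h3 : v i = v j := congrArg (fun a => (a.2 : ι)) h1
      have hτ : Equiv.swap i j ∈ S := by
        rw [hS, mem_filter]
        refine ⟨mem_univ _, ?_⟩
        funext l
        rw [Function.comp_apply]
        by_cases h4 : l = i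
        · rw [h4, Equiv.swap_apply_left, h2]
        · by_cases h5 : l = j
          · rw [h5, Equiv.swap_apply_right, h2]
          · rw [Equiv.swap_apply_of_ne_of_ne h4 h5]
      have h6 := congrArg (fun f : Module.End K M => f (e v)) (hR' _ hτ)
      simp only [Module.End.mul_apply] at h6
      rw [hO i j hij v hv h3, map_neg] at h6
      have h7 : (2 : K) • h (e v) = 0 := by
        rw [two_smul]
        nth_rewrite 1 [← h6]
        exact neg_add_cancel _
      exact (smul_eq_zero.1 h7).resolve_left two_ne_zero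
    have ht0 : tk e E 0 (h * z) = 0 := by
      unfold tk
      refine sum_eq_zero fun v _ => ?_
      split_ifs with h1
      · have hv : ∀ i, ¬ E (v i) := by
          intro i hi
          have : i ∈ univ.filter fun i => E (v i) := by simpa using hi
          rw [card_eq_zero.1 h1] at this
          simp at this
        rw [dc, hhz, Module.End.mul_apply, hodd v hv, map_zero, map_zero, Finsupp.zero_apply]
      · rfl
    have htrace := trace_of_zero E e R hP hl hr hPT (hl h hhA z hz) ht0
    have hidem : ((S.card : K)⁻¹ • (h * z)) * ((S.card : K)⁻¹ • (h * z)) =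
        (S.card : K)⁻¹ • (h * z) := by
      have h1 : (h * z) * (h * z) = (S.card : K) • (h * z) := by
        calc (h * z) * (h * z) = h * (z * h) * z := by simp only [mul_assoc]
          _ = (h * h) * (z * z) := by rw [← hhz]; simp only [mul_assoc]
          _ = _ := by rw [hhh, hzz, smul_mul_assoc]
      rw [smul_mul_smul_comm, h1, smul_smul]
      congr 1
      field_simp
    have h2 := htr _ hidem (by rw [map_smul, htrace, smul_zero])
    have h3 : h * z = 0 := (smul_eq_zero.1 h2).resolve_left (inv_ne_zero hcS)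
    have h4 : (z * h) (e w₀) = 0 := by rw [← hhz, h3, LinearMap.zero_apply]
    rw [Module.End.mul_apply, hw, map_smul] at h4
    exact (smul_eq_zero.1 h4).resolve_left hcS
  refine htr z hzz (trace_of_last E e R hP hl hr hPT hz ?_)
  unfold tk
  refine sum_eq_zero fun w _ => ?_
  split_ifs with h1
  · have hw : ∀ i, E (w i) := by
      intro i
      have h2 : (univ.filter fun i => E (w i)) = univ := by
        rw [← card_eq_iff_eq_univ, Fintype.card_fin]
        exact h1
      have : i ∈ univ.filter fun i => E (w i) := by rw [h2]; exact mem_univ i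
      simpa using this
    rw [dc, hkill w hw, map_zero, Finsupp.zero_apply]
  · rfl

end Rec

end Pool.Agent.Q55.Fin
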