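import Pool.Agent.Q55.Fin.Ptr
import Pool.Agent.Q55.Fin.Alg

/-!
# The partial traces of the permutations of the factors of a power
-/

open CategoryTheory AlgebraicGeometry

universe u v

set_option linter.unusedSectionVars false

namespace Pool.Agent.Q55.Fin

open Module Finset
open Pool.Agent.H914 Pool.Agent.H914.VarClass Pool.Agent.H914.VarClass.Obj
  Pool.Agent.H914.WeilCohomology Pool.Agent.Y133.Half

variable {k : Type u} [Field k] {𝒱 : VarClass k} {ops : CycleOps 𝒱}
  {W : WeilCohomology.{u, v} ops} {X P Q Z : 𝒱.Obj}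

lemma prod_perm_even {l l' : List (W.H Z)} (h : l.Perm l') (hl : ∀ x ∈ l, x ∈ PH W Z 0) :
    l.prod = l'.prod := by
  induction h with
  | nil => rfl
  | cons x _ ih =>
    rw [List.prod_cons, List.prod_cons, ih fun y hy => hl y (List.mem_cons_of_mem _ hy)]
  | swap x y l =>
    rw [List.prod_cons, List.prod_cons, List.prod_cons, List.prod_cons, ← mul_assoc,
      PH.even_comm (hl y (by simp)), mul_assoc]
  | trans h1 _ ih1 ih2 => exact (ih1 hl).trans (ih2 fun y hy => hl y (h1.mem_iff.2 hy))

lemma ev_map (f : P ⟶ Q) : Ev W (W.map f).toLinearMap := fun _ _ hx => PH.map f hx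

/-- The transposition of the last two factors. -/
def sw (n : ℕ) : Equiv.Perm (Fin (n + 2)) := Equiv.swap (Fin.last n).castSucc (Fin.last (n + 1))

section Basis

variable {ι : Type} [Fintype ι] [DecidableEq ι] (e : Basis ι W.K (W.H X)) {a : ι → ℕ}
  (ha : ∀ j, e j ∈ PH W X (a j))

include ha

lemma rho_even (n : ℕ) (σ : Equiv.Perm (Fin (n + 1))) (w : Fin (n + 1) → ι)
    (hw : ∀ i, a (w i) % 2 = 0) : rho W X n σ (wb e n (w ∘ σ)) = wb e n w := by
  change W.map (tau X n σ) (wb e n (w ∘ σ)) = wb e n w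
  rw [wb_eq, wb_eq, map_list_prod, List.map_ofFn]
  have h1 : (W.map (tau X n σ)) ∘ (fun i => W.map (prj X n i) (e ((w ∘ σ) i))) =
      (fun i => W.map (prj X n i) (e (w i))) ∘ σ := by
    funext i
    rw [Function.comp_apply, Function.comp_apply, ← W.map_comp, tau_prj]
    rfl
  rw [h1]
  refine prod_perm_even (σ.ofFn_comp_perm _) ?_
  intro x hx
  rw [List.mem_ofFn] at hx
  obtain ⟨i, rfl⟩ := hx
  exact PH.congr (hw _) (PH.map _ (ha _))

/-- The transposition of the last two factors on a word with equal last letters. -/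
lemma rho_sw (n : ℕ) (w : Fin (n + 2) → ι)
    (hw : w (Fin.last n).castSucc = w (Fin.last (n + 1))) :
    rho W X (n + 1) (sw n) (wb e (n + 1) w) =
      (-1 : W.K) ^ a (w (Fin.last (n + 1))) • wb e (n + 1) w := by
  change W.map (tau X (n + 1) (sw n)) (wb e (n + 1) w) = _
  rw [wb_eq, map_list_prod, List.map_ofFn]
  have h1 : (W.map (tau X (n + 1) (sw n))) ∘ (fun i => W.map (prj X (n + 1) i) (e (w i))) =
      fun i => W.map (prj X (n + 1) (sw n i)) (e (w i)) := by
    funext i
    rw [Function.comp_apply, ← W.map_comp, tau_prj]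
  rw [h1, List.ofFn_succ', List.ofFn_succ', List.prod_concat, List.prod_concat,
    List.ofFn_succ' (f := fun i => W.map (prj X (n + 1) i) (e (w i))), List.ofFn_succ',
    List.prod_concat, List.prod_concat]
  have h2 : ∀ i : Fin n, sw n i.castSucc.castSucc = i.castSucc.castSucc := by
    intro i
    refine Equiv.swap_apply_of_ne_of_ne ?_ ?_
    · intro h
      exact (Fin.castSucc_lt_last i).ne (Fin.castSucc_injective _ h)
    · exact (Fin.castSucc_lt_last _).ne
  have h3 : sw n (Fin.last n).castSucc = Fin.last (n + 1) := Equiv.swap_apply_left _ _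
  have h4 : sw n (Fin.last (n + 1)) = (Fin.last n).castSucc := Equiv.swap_apply_right _ _
  simp only [h2, h3, h4]
  rw [hw, mul_assoc, mul_assoc, PH.comm (PH.map (prj X (n + 1) (Fin.last (n + 1))) (ha _))
    (PH.map (prj X (n + 1) (Fin.last n).castSucc) (ha _)), mul_smul_comm]
  congr 1
  apply neg_pow_congr
  rcases Nat.even_or_odd (a (w (Fin.last (n + 1)))) with h | h
  · rw [Nat.mul_mod, Nat.even_iff.1 h]
  · rw [Nat.mul_mod, Nat.odd_iff.1 h]

lemma hP (n : ℕ) (σ : Equiv.Perm (Fin (n + 1))) (w : Fin (n + 1) → ι) :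
    ∃ s : W.K, s ≠ 0 ∧ rho W X n σ (wb e n (w ∘ σ)) = s • wb e n w :=
  tau_wb e (fun j => ⟨a j, ha j⟩) n σ w

lemma rho_inv (n : ℕ) (σ : Equiv.Perm (Fin (n + 1))) (w : Fin (n + 1) → ι) :
    ∃ s : W.K, s ≠ 0 ∧ rho W X n σ (wb e n (w ∘ σ)) = s • wb e n w ∧
      rho W X n σ⁻¹ (wb e n w) = s⁻¹ • wb e n (w ∘ σ) := by
  obtain ⟨s, hs, h⟩ := hP e ha n σ w
  refine ⟨s, hs, h, ?_⟩
  have h2 := congrArg (rho W X n σ⁻¹) h
  rw [map_smul] at h2
  have h3 : rho W X n σ⁻¹ (rho W X n σ (wb e n (w ∘ σ))) = wb e n (w ∘ σ) := by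
    change (rho W X n σ⁻¹ * rho W X n σ) _ = _
    rw [← map_mul, inv_mul_cancel, map_one, Module.End.one_apply]
  rw [h3] at h2
  rw [h2, smul_smul, inv_mul_cancel₀ hs, one_smul]

/-- A transposition of two equal letters. -/
lemma rho_swap (n : ℕ) {i j : Fin (n + 2)} (hij : i ≠ j) (w : Fin (n + 2) → ι) (hw : w i = w j) :
    rho W X (n + 1) (Equiv.swap i j) (wb e (n + 1) w) =
      (-1 : W.K) ^ a (w i) • wb e (n + 1) w := by
  set l := Fin.last (n + 1) with hl
  set p := (Fin.last n).castSucc with hp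
  have hpl : p ≠ l := (Fin.castSucc_lt_last _).ne
  set g₁ : Equiv.Perm (Fin (n + 2)) := Equiv.swap l i with hg₁
  set j' := g₁ j with hj'
  have hj'l : j' ≠ l := by
    intro h
    apply hij
    have h1 : g₁ i = l := Equiv.swap_apply_right _ _
    exact g₁.injective (h1.trans h.symm)
  set g₂ : Equiv.Perm (Fin (n + 2)) := Equiv.swap p j' with hg₂
  set g := g₁ * g₂ with hg
  have hgl : g l = i := by
    rw [hg, Equiv.Perm.mul_apply, hg₂, Equiv.swap_apply_of_ne_of_ne hpl.symm hj'l.symm, hg₁,
      Equiv.swap_apply_left]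
  have hgp : g p = j := by
    rw [hg, Equiv.Perm.mul_apply, hg₂, Equiv.swap_apply_left, hj', hg₁, Equiv.swap_apply_self]
  have h1 : Equiv.swap i j = g * sw n * g⁻¹ := by
    have h2 : g * Equiv.swap p l = Equiv.swap (g p) (g l) * g := Equiv.mul_swap_eq_swap_mul g p l
    have h3 : sw n = Equiv.swap p l := rfl
    rw [h3, h2, hgl, hgp, mul_inv_cancel_right, Equiv.swap_comm]
  obtain ⟨s, hs, e1, e2⟩ := rho_inv e ha (n + 1) g w
  have e3 := rho_sw e ha n (w ∘ g) (by
    change w (g p) = w (g l)
    rw [hgp, hgl, hw])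
  have e4 : (w ∘ g) (Fin.last (n + 1)) = w i := congrArg w hgl
  rw [h1, map_mul, map_mul, Module.End.mul_apply, Module.End.mul_apply, e2, map_smul, map_smul,
    e3, map_smul, e1, e4, smul_smul, smul_smul]
  congr 1
  field_simp

omit ha in
lemma par_xp (u : W.H P) (v : W.H X) : par (W.isInternal (P.prod X)) (xp W u v) =
    xp W (par (W.isInternal P) u) (par (W.isInternal X) v) := by
  rw [Pool.Agent.Y163.par_prod, extOp_xp]

lemma par_wb (n : ℕ) (w : Fin (n + 1) → ι) : par (W.isInternal (pw X n)) (wb e n w) =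
    (∏ i, sg (fun c => a c % 2 = 0) W.K (w i)) • wb e n w := by
  have hsg : ∀ c, par (W.isInternal X) (e c) = sg (fun c => a c % 2 = 0) W.K c • e c := by
    intro c
    rw [PH.par (ha c)]
    congr 1
    unfold sg
    split_ifs with h
    · exact Even.neg_one_pow (Nat.even_iff.2 h)
    · exact Odd.neg_one_pow (Nat.odd_iff.2 (by omega))
  induction n with
  | zero =>
    rw [wb_zero, Fin.prod_univ_one]
    exact hsg _
  | succ n ih =>
    have h1 : wb e (n + 1) w = xp W (wb e n fun i => w i.castSucc) (e (w (Fin.last _))) :=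
      wb_succ e n w
    have h2 := par_xp (W := W) (P := pw X n) (X := X) (wb e n fun i => w i.castSucc)
      (e (w (Fin.last _)))
    rw [h1]
    refine h2.trans ?_
    rw [ih, hsg, xp_smul_left, xp_smul_right, smul_smul]
    congr 1
    exact (Fin.prod_univ_castSucc (n := n + 1) fun i => sg (fun c => a c % 2 = 0) W.K (w i)).symm

lemma coord_par (n : ℕ) (y : W.H (pw X n)) (w : Fin (n + 1) → ι) :
    (wb e n).repr (par (W.isInternal (pw X n)) y) w =
      (∏ i, sg (fun c => a c % 2 = 0) W.K (w i)) * (wb e n).repr y w := by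
  have h : (wb e n).coord w ∘ₗ par (W.isInternal (pw X n)) =
      (∏ i, sg (fun c => a c % 2 = 0) W.K (w i)) • (wb e n).coord w := by
    apply (wb e n).ext
    intro v
    rw [LinearMap.comp_apply, par_wb e ha, map_smul, LinearMap.smul_apply, Basis.coord_apply,
      Basis.repr_self]
    by_cases hv : w = v
    · rw [hv]
    · rw [Finsupp.single_eq_of_ne hv, smul_zero, smul_zero]
  exact congrArg (fun f => f y) h

omit ha in
/-- The basis of the cohomology of `X^(n+2)` given by words. -/
noncomputable def wbP (n : ℕ) : Basis (Fin (n + 2) → ι) W.K (W.H ((pw X n).prod X)) :=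
  wb e (n + 1)

omit ha in
lemma wbP_apply (n : ℕ) (w : Fin (n + 2) → ι) :
    wbP e n w = xp W (wb e n fun i => w i.castSucc) (e (w (Fin.last _))) := wb_succ e n w

omit ha in
lemma wbP_snoc (n : ℕ) (v : Fin (n + 1) → ι) (d : ι) :
    wbP e n (Fin.snoc (α := fun _ => ι) v d) = xp W (wb e n v) (e d) := by
  have h : (fun i : Fin (n + 1) => (Fin.snoc (α := fun _ => ι) v d : Fin (n + 2) → ι) i.castSucc) =
      v := by
    funext i
    rw [Fin.snoc_castSucc]
  rw [wbP_apply, Fin.snoc_last, h]

omit ha in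
lemma snoc_init (n : ℕ) (w : Fin (n + 2) → ι) :
    Fin.snoc (α := fun _ => ι) (fun i => w i.castSucc) (w (Fin.last (n + 1))) = w := by
  funext i
  refine Fin.lastCases ?_ (fun j => ?_) i
  · rw [Fin.snoc_last]
  · rw [Fin.snoc_castSucc]

lemma coord_parP (n : ℕ) (y : W.H ((pw X n).prod X)) (w : Fin (n + 2) → ι) :
    (wbP e n).repr (par (W.isInternal ((pw X n).prod X)) y) w =
      (∏ i, sg (fun c => a c % 2 = 0) W.K (w i)) * (wbP e n).repr y w :=
  coord_par e ha (n + 1) y w

omit ha in
lemma coord_xp (n : ℕ) (w : Fin (n + 2) → ι) (y : W.H (pw X n)) (d : ι) :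
    (wbP e n).repr (xp W y (e d)) w =
      if w (Fin.last (n + 1)) = d then (wb e n).repr y (fun i => w i.castSucc) else 0 := by
  let F : W.H (pw X n) →ₗ[W.K] W.K :=
    { toFun := fun y => (wbP e n).repr (xp W y (e d)) w
      map_add' := fun y y' => by rw [xp_add_left, map_add, Finsupp.add_apply]
      map_smul' := fun c y => by rw [xp_smul_left, map_smul, Finsupp.smul_apply, RingHom.id_apply] }
  let G : W.H (pw X n) →ₗ[W.K] W.K :=
    if w (Fin.last (n + 1)) = d then (wb e n).coord (fun i => w i.castSucc) else 0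
  have h : F = G := by
    apply (wb e n).ext
    intro v
    change (wbP e n).repr (xp W (wb e n v) (e d)) w = G (wb e n v)
    rw [← wbP_snoc, Basis.repr_self]
    by_cases hd : w (Fin.last (n + 1)) = d
    · simp only [G, if_pos hd]
      rw [Basis.coord_apply, Basis.repr_self]
      by_cases hv : (fun i : Fin (n + 1) => w i.castSucc) = v
      · rw [hv, Finsupp.single_eq_same]
        have : w = Fin.snoc (α := fun _ => ι) v d := by rw [← hv, ← hd, snoc_init]
        rw [← this, Finsupp.single_eq_same]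
      · rw [Finsupp.single_eq_of_ne hv, Finsupp.single_eq_of_ne]
        intro h1
        apply hv
        funext i
        rw [h1, Fin.snoc_castSucc]
    · simp only [G, if_neg hd, LinearMap.zero_apply]
      rw [Finsupp.single_eq_of_ne]
      intro h1
      apply hd
      rw [h1, Fin.snoc_last]
  have h1 := congrArg (fun f : W.H (pw X n) →ₗ[W.K] W.K => f y) h
  change (wbP e n).repr (xp W y (e d)) w = G y at h1
  rw [h1]
  by_cases hd : w (Fin.last (n + 1)) = d
  · simp only [G, if_pos hd]
    rfl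
  · simp only [G, if_neg hd, LinearMap.zero_apply]

/-- The diagonal coefficients of the product with an operator on the first factors. -/
lemma dc_ext (n : ℕ) (A : Module.End W.K (W.H (pw X n)))
    (f : Module.End W.K (W.H ((pw X n).prod X))) (w w' : Fin (n + 2) → ι) (s : W.K)
    (hf : f (wbP e n w) = s • wbP e n w') :
    dc (wbP e n) (par (W.isInternal ((pw X n).prod X)) * extOp W A 1 * f) w =
      (∏ i, sg (fun c => a c % 2 = 0) W.K (w i)) * (s *
        if w (Fin.last (n + 1)) = w' (Fin.last (n + 1)) then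
          (wb e n).repr (A (wb e n fun i => w' i.castSucc)) (fun i => w i.castSucc) else 0) := by
  rw [dc, Module.End.mul_apply, Module.End.mul_apply, coord_parP e ha, hf, map_smul, wbP_apply,
    extOp_xp, map_smul, Finsupp.smul_apply, smul_eq_mul, Module.End.one_apply, coord_xp]

omit ha in
/-- The action of the permutations of the factors of `X^(n+2)`. -/
noncomputable def rhoP (W : WeilCohomology.{u, v} ops) (X : 𝒱.Obj) (n : ℕ) :
    Equiv.Perm (Fin (n + 2)) →* Module.End W.K (W.H ((pw X n).prod X)) := rho W X (n + 1)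

/-- The partial trace of the transposition of the last two factors. -/
lemma isPt_sw (n : ℕ) : IsPt (rhoP W X n (sw n)) 1 := by
  intro A
  rw [mul_one, trace_eq_dc (wb e n), trace_eq_dc (wbP e n)]
  have hL : ∀ v, dc (wb e n) (par (W.isInternal (pw X n)) * A) v =
      (∏ i, sg (fun c => a c % 2 = 0) W.K (v i)) * dc (wb e n) A v := fun v =>
    coord_par e ha n _ v
  have hR : ∀ w : Fin (n + 2) → ι, dc (wbP e n) (par (W.isInternal ((pw X n).prod X)) *
      extOp W A 1 * rhoP W X n (sw n)) w =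
      if w (Fin.last (n + 1)) = w (Fin.last n).castSucc then
        (∏ i : Fin (n + 1), sg (fun c => a c % 2 = 0) W.K (w i.castSucc)) *
          dc (wb e n) A (fun i => w i.castSucc) else 0 := by
    intro w
    split_ifs with hw
    · have h0 : rhoP W X n (sw n) (wbP e n w) =
          (-1 : W.K) ^ a (w (Fin.last (n + 1))) • wbP e n w := rho_sw e ha n w hw.symm
      rw [dc_ext e ha n A _ w w _ h0, if_pos rfl, Fin.prod_univ_castSucc]
      have h1 : sg (fun c => a c % 2 = 0) W.K (w (Fin.last (n + 1))) *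
          (-1 : W.K) ^ a (w (Fin.last (n + 1))) = 1 := by
        unfold sg
        split_ifs with h
        · rw [Even.neg_one_pow (Nat.even_iff.2 h), mul_one]
        · rw [Odd.neg_one_pow (Nat.odd_iff.2 (by omega))]
          ring
      calc _ = (∏ i : Fin (n + 1), sg (fun c => a c % 2 = 0) W.K (w i.castSucc)) *
            (sg (fun c => a c % 2 = 0) W.K (w (Fin.last (n + 1))) *
              (-1 : W.K) ^ a (w (Fin.last (n + 1)))) *
                (wb e n).repr (A (wb e n fun i => w i.castSucc)) (fun i => w i.castSucc) := by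
            ring
        _ = _ := by rw [h1, mul_one]; rfl
    · obtain ⟨s, hs, h1, -⟩ := rho_inv e ha (n + 1) (sw n) (w ∘ sw n)
      have h2 : (w ∘ sw n) ∘ sw n = w := by
        funext i
        simp only [Function.comp_apply, sw, Equiv.swap_apply_self]
      rw [h2] at h1
      have h0 : rhoP W X n (sw n) (wbP e n w) = s • wbP e n (w ∘ sw n) := h1
      rw [dc_ext e ha n A _ w _ _ h0, if_neg, mul_zero, mul_zero]
      have h3 : (w ∘ sw n) (Fin.last (n + 1)) = w (Fin.last n).castSucc :=
        congrArg w (Equiv.swap_apply_right _ _)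
      rw [h3]
      exact hw
  rw [sum_congr rfl fun v _ => hL v, sum_congr rfl fun w _ => hR w]
  let ψ := (Equiv.prodComm (Fin (n + 1) → ι) ι).trans (Fin.snocEquiv fun _ => ι)
  rw [← ψ.sum_comp]
  have hψ1 : ∀ x : (Fin (n + 1) → ι) × ι, ψ x (Fin.last (n + 1)) = x.2 := fun x => by
    change (Fin.snoc (α := fun _ => ι) x.1 x.2 : Fin (n + 2) → ι) (Fin.last (n + 1)) = x.2
    rw [Fin.snoc_last]
  have hψ2 : ∀ (x : (Fin (n + 1) → ι) × ι) (i : Fin (n + 1)), ψ x i.castSucc = x.1 i := fun x i => by
    change (Fin.snoc (α := fun _ => ι) x.1 x.2 : Fin (n + 2) → ι) i.castSucc = x.1 i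
    rw [Fin.snoc_castSucc]
  simp only [hψ1, hψ2]
  rw [Fintype.sum_prod_type]
  refine sum_congr rfl fun v _ => ?_
  rw [sum_ite_eq', if_pos (mem_univ _)]

/-- The diagonal operators on the first factors. -/
lemma sum_of_isPt (n : ℕ) {f : Module.End W.K (W.H ((pw X n).prod X))} (hf : IsPt f 0)
    (g : (Fin (n + 1) → ι) → W.K) :
    ∑ w : Fin (n + 2) → ι, (∏ i, sg (fun c => a c % 2 = 0) W.K (w i)) *
      g (fun i => w i.castSucc) * dc (wbP e n) f w = 0 := by
  let A : Module.End W.K (W.H (pw X n)) := (wb e n).constr W.K fun v => g v • wb e n v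
  have hA : ∀ v, A (wb e n v) = g v • wb e n v := fun v => (wb e n).constr_basis W.K _ v
  have h := hf A
  rw [mul_zero, map_zero, LinearMap.trace_mul_comm, trace_eq_dc (wbP e n)] at h
  rw [h]
  refine sum_congr rfl fun w _ => ?_
  have h1 : (par (W.isInternal ((pw X n).prod X)) * extOp W A (1 : Module.End W.K (W.H X)) :
      Module.End W.K (W.H ((pw X n).prod X))) (wbP e n w) =
      ((∏ i, sg (fun c => a c % 2 = 0) W.K (w i)) * g (fun i => w i.castSucc)) • wbP e n w := by
    have h2 : extOp W A 1 (wbP e n w) = g (fun i => w i.castSucc) • wbP e n w := by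
      rw [wbP_apply, extOp_xp, hA, xp_smul_left, Module.End.one_apply]
    have h3 : par (W.isInternal ((pw X n).prod X)) (wbP e n w) =
        (∏ i, sg (fun c => a c % 2 = 0) W.K (w i)) • wbP e n w := par_wb e ha (n + 1) w
    rw [Module.End.mul_apply, h2, map_smul, h3, smul_smul, mul_comm]
  rw [dc, dc, Module.End.mul_apply, h1, map_smul, map_smul, Finsupp.smul_apply, smul_eq_mul]

end Basis

/-- A permutation which fixes the last point. -/
lemma exists_up {n : ℕ} (σ : Equiv.Perm (Fin (n + 2))) (h : σ (Fin.last (n + 1)) = Fin.last (n + 1)) :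
    ∃ g : Equiv.Perm (Fin (n + 1)), ∀ j, σ j.castSucc = (g j).castSucc := by
  have h1 : ∀ j : Fin (n + 1), ∃ j' : Fin (n + 1), j'.castSucc = σ j.castSucc := by
    intro j
    refine Fin.exists_castSucc_eq.2 ?_
    intro h2
    rw [← h] at h2
    exact (Fin.castSucc_lt_last j).ne (σ.injective h2)
  choose g hg using h1
  have hinj : Function.Injective g := by
    intro i j hij
    have h2 : σ i.castSucc = σ j.castSucc := by rw [← hg, ← hg, hij]
    exact Fin.castSucc_injective _ (σ.injective h2)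
  exact ⟨Equiv.ofBijective g (Finite.injective_iff_bijective.1 hinj), fun j => (hg j).symm⟩

lemma rhoP_up {n : ℕ} {σ : Equiv.Perm (Fin (n + 2))} (h : σ (Fin.last (n + 1)) = Fin.last (n + 1))
    {g : Equiv.Perm (Fin (n + 1))} (hg : ∀ j, σ j.castSucc = (g j).castSucc) :
    rhoP W X n σ = extOp W (rho W X n g) 1 := by
  have e1 : tau X (n + 1) σ ≫ pfst X n = pfst X n ≫ tau X n g := by
    apply hom_ext_prj
    intro i
    rw [Category.assoc, Category.assoc, ← prj_castSucc, tau_prj, tau_prj, hg, prj_castSucc]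
  have e2 : tau X (n + 1) σ ≫ psnd X n = psnd X n := by
    rw [← prj_last, tau_prj, h]
  apply xp_ext
  intro i j x _ y _
  rw [extOp_xp]
  have h3 : rhoP W X n σ (xp W x y) = W.map (tau X (n + 1) σ ≫ pfst X n) x *
      W.map (tau X (n + 1) σ ≫ psnd X n) y := map_xp _ x y
  rw [h3, e1, e2, W.map_comp]
  rfl

lemma par_rho (n : ℕ) (σ : Equiv.Perm (Fin (n + 1))) :
    par (W.isInternal (pw X n)) * rho W X n σ = rho W X n σ * par (W.isInternal (pw X n)) :=
  (ev_map (W := W) (tau X n σ)).par_comm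

/-- **The partial trace of a permutation is a multiple of a permutation.** -/
theorem exists_pt_rho (n : ℕ) (σ : Equiv.Perm (Fin (n + 2))) :
    ∃ B ∈ Submodule.span W.K (Set.range (rho W X n)), IsPt (rhoP W X n σ) B := by
  classical
  obtain ⟨e, he⟩ := exists_hbasis W X
  choose a ha using he
  by_cases h : σ (Fin.last (n + 1)) = Fin.last (n + 1)
  · obtain ⟨g, hg⟩ := exists_up σ h
    rw [rhoP_up h hg]
    exact ⟨_, Submodule.smul_mem _ _ (Submodule.subset_span ⟨g, rfl⟩), isPt_extOp _⟩
  · obtain ⟨j, hj⟩ := Fin.exists_castSucc_eq.2 h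
    set p := (Fin.last n).castSucc with hp
    set l := Fin.last (n + 1) with hl
    have hpl : p ≠ l := (Fin.castSucc_lt_last _).ne
    have hjl : j.castSucc ≠ l := (Fin.castSucc_lt_last _).ne
    set s₁ : Equiv.Perm (Fin (n + 2)) := Equiv.swap j.castSucc p with hs₁
    have h1 : s₁ l = l := Equiv.swap_apply_of_ne_of_ne hjl.symm hpl.symm
    set τ := sw n * s₁ * σ with hτ
    have h2 : τ l = l := by
      rw [hτ, Equiv.Perm.mul_apply, Equiv.Perm.mul_apply, ← hj, hs₁, Equiv.swap_apply_left]
      exact Equiv.swap_apply_left _ _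
    have h3 : σ = s₁ * sw n * τ := by
      have e1 : s₁ * s₁ = 1 := Equiv.swap_mul_self _ _
      have e2 : sw n * sw n = 1 := Equiv.swap_mul_self _ _
      calc σ = s₁ * (sw n * sw n) * s₁ * σ := by rw [e2, mul_one, e1, one_mul]
        _ = _ := by rw [hτ]; simp only [mul_assoc]
    obtain ⟨g₁, hg₁⟩ := exists_up s₁ h1
    obtain ⟨g₂, hg₂⟩ := exists_up τ h2
    rw [h3, map_mul, map_mul, rhoP_up h1 hg₁, rhoP_up h2 hg₂]
    refine ⟨_, ?_, (isPt_sw e ha n).conj (par_rho n g₂)⟩
    rw [mul_one, ← map_mul]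
    exact Submodule.subset_span ⟨_, rfl⟩

lemma IsPt.add {f f' : Module.End W.K (W.H (P.prod X))} {B B' : Module.End W.K (W.H P)}
    (h : IsPt f B) (h' : IsPt f' B') : IsPt (f + f') (B + B') := fun A => by
  rw [mul_add, mul_add, map_add, map_add, h A, h' A]

lemma IsPt.smul {f : Module.End W.K (W.H (P.prod X))} {B : Module.End W.K (W.H P)} (c : W.K)
    (h : IsPt f B) : IsPt (c • f) (c • B) := fun A => by
  rw [mul_smul_comm, mul_smul_comm, map_smul, map_smul, h A]

/-- The partial traces of the combinations of permutations. -/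
theorem exists_pt_span (n : ℕ) {f : Module.End W.K (W.H ((pw X n).prod X))}
    (hf : f ∈ Submodule.span W.K (Set.range (rhoP W X n))) :
    ∃ B ∈ Submodule.span W.K (Set.range (rho W X n)), IsPt f B := by
  induction hf using Submodule.span_induction with
  | mem f hf => obtain ⟨σ, rfl⟩ := hf; exact exists_pt_rho n σ
  | zero => exact ⟨0, Submodule.zero_mem _, fun A => by rw [mul_zero, mul_zero, map_zero, map_zero]⟩
  | add f f' _ _ h h' =>
    obtain ⟨B, hB, h⟩ := h
    obtain ⟨B', hB', h'⟩ := h'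
    exact ⟨_, Submodule.add_mem _ hB hB', h.add h'⟩
  | smul c f _ h =>
    obtain ⟨B, hB, h⟩ := h
    exact ⟨_, Submodule.smul_mem _ c hB, h.smul c⟩

end Pool.Agent.Q55.Fin
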