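import Pool.Agent.Y133.Half.Growth
import Pool.Agent.Y163.Idx

/-!
# The partial trace of a correspondence
-/

open CategoryTheory AlgebraicGeometry

universe u v

namespace Pool.Agent.Q55.Fin

open Module
open Pool.Agent.H914 Pool.Agent.H914.VarClass Pool.Agent.H914.VarClass.Obj
  Pool.Agent.H914.WeilCohomology Pool.Agent.Y133.Half

variable {k : Type u} [Field k] {𝒱 : VarClass k} {ops : CycleOps 𝒱}
  {W : WeilCohomology.{u, v} ops} {X P Q : 𝒱.Obj}

lemma trace_extOp (g : Module.End W.K (W.H P)) (h : Module.End W.K (W.H X)) :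
    LinearMap.trace W.K _ (extOp W g h) =
      LinearMap.trace W.K _ g * LinearMap.trace W.K _ h := by
  have h4 : extOp W g h = (kappa W P X).conj (TensorProduct.map g h) := by
    rw [LinearEquiv.conj_apply, extOp, LinearMap.comp_assoc]
  rw [h4, LinearMap.trace_conj', LinearMap.trace_tensorProduct']

/-- Every operator is given by a class. -/
lemma exists_corr (A : Module.End W.K (W.H P)) : ∃ a : W.H (P.prod P), W.corr a = A := by
  have hinj : Function.Injective (corrL W P P) :=
    (injective_iff_map_eq_zero _).2 fun x h => corr_inj h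
  have hd : finrank W.K (W.H (P.prod P)) = finrank W.K (Module.End W.K (W.H P)) := by
    rw [Pool.Agent.Y133.Half.finrank_prod, Module.finrank_linearMap]
  exact (LinearMap.injective_iff_surjective_of_finrank_eq_finrank hd).1 hinj A

lemma diag_even : W.push (diag X) (1 : W.H X) ∈ PH W (X.prod X) 0 :=
  PH.push _ (PH.of (W := W) (W.one_mem X))

/-- The class of the diagonal is symmetric. -/
lemma swap_diag : W.map (swap X X) (W.push (diag X) (1 : W.H X)) =
    W.push (diag X) (1 : W.H X) := by
  have h1 : W.corr (W.map (swap X X) (W.push (diag X) (1 : W.H X))) = LinearMap.id := by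
    apply LinearMap.ext
    intro b
    refine sub_eq_zero.1 (nondeg_right (fun a => ?_))
    rw [mul_sub, map_sub, ← tr_corr' diag_even, Sys.corr_diag_one]
    exact sub_self _
  refine sub_eq_zero.1 (corr_inj ?_)
  have h5 : corrL W X X (W.map (swap X X) (W.push (diag X) (1 : W.H X)) -
      W.push (diag X) (1 : W.H X)) = 0 := by
    rw [map_sub]
    change W.corr _ - W.corr _ = 0
    rw [h1, Sys.corr_diag_one, sub_self]
  exact h5

lemma swap_q1 : swap (P.prod X) (P.prod X) ≫ q1 P X = q1 P X ≫ swap P P := by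
  apply prod_hom_ext
  · rw [Category.assoc, Category.assoc, swap_fst, q1, Obj.lift_fst, Obj.lift_snd,
      ← Category.assoc, swap_fst]
  · rw [Category.assoc, Category.assoc, swap_snd, q1, Obj.lift_snd, Obj.lift_fst,
      ← Category.assoc, swap_snd]

lemma swap_q2 : swap (P.prod X) (P.prod X) ≫ q2 P X = q2 P X ≫ swap X X := by
  apply prod_hom_ext
  · rw [Category.assoc, Category.assoc, swap_fst, q2, Obj.lift_fst, Obj.lift_snd,
      ← Category.assoc, swap_fst]
  · rw [Category.assoc, Category.assoc, swap_snd, q2, Obj.lift_snd, Obj.lift_fst,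
      ← Category.assoc, swap_snd]

/-- The partial trace of a class. -/
noncomputable def ptc (W : WeilCohomology.{u, v} ops) (P X : 𝒱.Obj)
    (c : W.H ((P.prod X).prod (P.prod X))) : W.H (P.prod P) :=
  W.push (q1 P X) (c * W.map (q2 P X) (W.push (diag X) 1))

/-- The operator `B` is the partial trace of the operator `f`. -/
def IsPt (f : Module.End W.K (W.H (P.prod X))) (B : Module.End W.K (W.H P)) : Prop :=
  ∀ A : Module.End W.K (W.H P), LinearMap.trace W.K _ (par (W.isInternal P) * A * B) =
    LinearMap.trace W.K _ (par (W.isInternal (P.prod X)) * extOp W A 1 * f)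

/-- The intersection number of classes as a trace. -/
lemma trace_mul_corr (a c : W.H (P.prod P)) :
    LinearMap.trace W.K _ (par (W.isInternal P) * W.corr a * W.corr c) =
      W.tr (P.prod P) (a * W.map (swap P P) c) := by
  rw [mul_assoc]
  exact trace_corr_corr (W := W) (M := P) (N := P) a c

lemma tr_push_swap {N : 𝒱.Obj} (q : N ⟶ P.prod P) {y : W.H N} (hy : y ∈ PH W N 0)
    (a : W.H (P.prod P)) :
    W.tr (P.prod P) (a * W.map (swap P P) (W.push q y)) =
      W.tr N (W.map q (W.map (swap P P) a) * y) := by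
  have hp : W.push q y ∈ PH W _ 0 := PH.push _ hy
  have s1 : a * W.map (swap P P) (W.push q y) =
      W.map (swap P P) (W.map (swap P P) a * W.push q y) := by
    rw [map_mul, swap_swap]
  rw [s1, tr_swap, ← PH.even_comm hp, W.tr_push, PH.even_comm hy]

lemma tr_swap_mul {N : 𝒱.Obj} {x y z x' y' z' : W.H (N.prod N)}
    (hx : W.map (swap N N) x = x') (hy : W.map (swap N N) y = y')
    (hz : W.map (swap N N) z = z') (hy' : y' ∈ PH W _ 0) :
    W.tr _ (x * (y * z)) = W.tr _ ((x' * z') * y') := by
  rw [← tr_swap (X := N) (Y := N), map_mul (W.map (swap N N)), map_mul (W.map (swap N N)), hx,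
    hy, hz, PH.even_comm hy', mul_assoc]

lemma ptc_aux {a : W.H (P.prod P)} {c : W.H ((P.prod X).prod (P.prod X))}
    (hc : c ∈ PH W ((P.prod X).prod (P.prod X)) 0) :
    W.tr (P.prod P) (a * W.map (swap P P) (ptc W P X c)) =
      W.tr _ ((W.map (q1 P X) a * W.map (q2 P X) (W.push (diag X) 1)) *
        W.map (swap (P.prod X) (P.prod X)) c) := by
  have hd : W.map (q2 P X) (W.push (diag X) (1 : W.H X)) ∈ PH W _ 0 := PH.map _ diag_even
  have hy : c * W.map (q2 P X) (W.push (diag X) 1) ∈ PH W _ 0 := by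
    have := PH.mul hc hd
    rwa [add_zero] at this
  have h1 : W.map (swap (P.prod X) (P.prod X)) (W.map (q1 P X) (W.map (swap P P) a)) =
      W.map (q1 P X) a := by
    rw [← W.map_comp, swap_q1, W.map_comp, swap_swap]
  have h2 : W.map (swap (P.prod X) (P.prod X)) (W.map (q2 P X) (W.push (diag X) (1 : W.H X))) =
      W.map (q2 P X) (W.push (diag X) (1 : W.H X)) := by
    rw [← W.map_comp, swap_q2, W.map_comp, swap_diag]
  have h3 := tr_push_swap (q1 P X) hy a
  have h4 := tr_swap_mul h1 (y := c) rfl h2 (PH.map _ hc)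
  exact h3.trans h4

theorem isPt_ptc {c : W.H ((P.prod X).prod (P.prod X))}
    (hc : c ∈ PH W ((P.prod X).prod (P.prod X)) 0) :
    IsPt (W.corr c) (W.corr (ptc W P X c)) := by
  intro A
  obtain ⟨a, rfl⟩ := exists_corr A
  have e1 : extOp W (W.corr a) (1 : Module.End W.K (W.H X)) =
      W.corr (W.map (q1 P X) a * W.map (q2 P X) (W.push (diag X) 1)) := by
    rw [Sys.corr_ext_class a diag_even, Sys.corr_diag_one]
    rfl
  rw [e1, trace_mul_corr, trace_mul_corr]
  exact ptc_aux hc

/-- The partial trace is unique. -/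
theorem IsPt.unique {f : Module.End W.K (W.H (P.prod X))} {B B' : Module.End W.K (W.H P)}
    (h : IsPt f B) (h' : IsPt f B') : B = B' := by
  have h1 : ∀ A : Module.End W.K (W.H P),
      LinearMap.trace W.K _ (par (W.isInternal P) * A * (B - B')) = 0 := by
    intro A
    rw [mul_sub, map_sub, h A, h' A, sub_self]
  have h2 : ∀ A : Module.End W.K (W.H P), LinearMap.trace W.K _ (A * (B - B')) = 0 := by
    intro A
    have := h1 (par (W.isInternal P) * A)
    rwa [← mul_assoc, H914.par_mul_par, one_mul] at this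
  refine sub_eq_zero.1 (LinearMap.ext fun v => ?_)
  rw [LinearMap.zero_apply]
  refine (Module.forall_dual_apply_eq_zero_iff W.K _).1 fun φ => ?_
  have h3 := h2 (φ.smulRight v)
  have h4 : (φ.smulRight v) * (B - B') = (φ ∘ₗ (B - B')).smulRight v := rfl
  rw [h4, LinearMap.trace_smulRight] at h3
  exact h3

/-- The partial trace of an external product. -/
lemma isPt_extOp (B : Module.End W.K (W.H P)) :
    IsPt (extOp W B (1 : Module.End W.K (W.H X)))
      (LinearMap.trace W.K _ (par (W.isInternal X)) • B) := by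
  intro A
  rw [mul_assoc (par (W.isInternal (P.prod X))), extOp_mul, Pool.Agent.Y163.par_prod, extOp_mul,
    trace_extOp, mul_smul_comm, map_smul, smul_eq_mul, mul_one, mul_comm, mul_assoc, mul_one]

/-- The partial trace of a conjugate. -/
lemma IsPt.conj {f : Module.End W.K (W.H (P.prod X))} {B : Module.End W.K (W.H P)}
    (h : IsPt f B) {g₁ g₂ : Module.End W.K (W.H P)}
    (hg : par (W.isInternal P) * g₂ = g₂ * par (W.isInternal P)) :
    IsPt (extOp W g₁ 1 * f * extOp W g₂ (1 : Module.End W.K (W.H X))) (g₁ * B * g₂) := by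
  intro A
  have h1 := h (g₂ * A * g₁)
  have e0 : par (W.isInternal (P.prod X)) * extOp W g₂ (1 : Module.End W.K (W.H X)) =
      extOp W g₂ (1 : Module.End W.K (W.H X)) * par (W.isInternal (P.prod X)) := by
    rw [Pool.Agent.Y163.par_prod, extOp_mul, extOp_mul, hg, mul_one, one_mul]
  have e1 : LinearMap.trace W.K _ (par (W.isInternal P) * A * (g₁ * B * g₂)) =
      LinearMap.trace W.K _ (par (W.isInternal P) * (g₂ * A * g₁) * B) := by
    rw [← mul_assoc, LinearMap.trace_mul_comm, ← mul_assoc, ← mul_assoc, ← mul_assoc, ← hg]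
    simp only [mul_assoc]
  have e2 : LinearMap.trace W.K _ (par (W.isInternal (P.prod X)) * extOp W A 1 *
      (extOp W g₁ 1 * f * extOp W g₂ (1 : Module.End W.K (W.H X)))) =
      LinearMap.trace W.K _ (par (W.isInternal (P.prod X)) *
        extOp W (g₂ * A * g₁) (1 : Module.End W.K (W.H X)) * f) := by
    have e3 : extOp W (g₂ * A * g₁) (1 : Module.End W.K (W.H X)) =
        extOp W g₂ 1 * extOp W A 1 * extOp W g₁ 1 := by
      rw [extOp_mul, extOp_mul, mul_one, mul_one]
    rw [e3, ← mul_assoc, LinearMap.trace_mul_comm, ← mul_assoc, ← mul_assoc, ← mul_assoc, ← e0]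
    simp only [mul_assoc]
  rw [e1, e2, h1]

variable {S : Sys W}

lemma exists_pt {f : Module.End W.K (W.H (P.prod X))} (hf : f ∈ S.Op (P.prod X) (P.prod X)) :
    ∃ B ∈ S.Op P P, IsPt f B := by
  obtain ⟨c, hc, rfl⟩ := Sys.mem_Op.1 hf
  exact ⟨_, Sys.Op.corr (S.push _ (S.mul hc (S.map _ Sys.diag_mem))), isPt_ptc (S.even hc)⟩

lemma exists_pt_num {f : Module.End W.K (W.H (P.prod X))}
    (hf : f ∈ S.NOp (P.prod X) (P.prod X)) : ∃ B ∈ S.NOp P P, IsPt f B := by
  obtain ⟨c, hc, rfl⟩ := Sys.mem_NOp.1 hf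
  exact ⟨_, Sys.NOp.corr (Sys.Num.push _ (Sys.Num.mul hc (S.map _ Sys.diag_mem))),
    isPt_ptc (S.even hc.1)⟩

end Pool.Agent.Q55.Fin
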